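import Pool.Agent.W2helper25.GP.Basic
import Pool.Agent.Y417.FJ.Am
import Pool.Agent.Y529.FJ.Ext
import Pool.Agent.Y961.FJ.Perm

/-!
# Mapping tori of finite graph products of pairs
-/

set_option autoImplicit false

namespace Pool.Agent.W2helper25.GP

open Pool.Agent.Y110.FJ
open Pool.Agent.Y462.SS (Closed)
open Pool.Agent.N77.GP (MT il tt mt_pow mt_one tt_conj mtLift mtLift_il mtLift_tt mt_form
  mt_hom_ext mt_of)

theorem s_am : S_AM :=
  Pool.Agent.Y417.FJ.t_am (Pool.Agent.Y961.FJ.t_perm Pool.Agent.Y529.FJ.t_ext)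

section gen

variable {G L : Type} [Group G] [Group L]

theorem norm_of_gens (S : Set G) (g : G) (h1 : ∀ s ∈ S, g * s * g⁻¹ ∈ Subgroup.closure S)
    (h2 : ∀ s ∈ S, g⁻¹ * s * g ∈ Subgroup.closure S) :
    g ∈ Subgroup.normalizer (Subgroup.closure S : Set G) := by
  have key : ∀ (k : G), (∀ s ∈ S, k * s * k⁻¹ ∈ Subgroup.closure S) →
      ∀ z ∈ Subgroup.closure S, k * z * k⁻¹ ∈ Subgroup.closure S := by
    intro k hk z hz
    have h3 : Subgroup.closure S ≤ (Subgroup.closure S).comap (MulAut.conj k).toMonoidHom := by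
      rw [Subgroup.closure_le]
      exact hk
    exact h3 hz
  rw [Subgroup.mem_normalizer_iff]
  intro z
  constructor
  · exact key g h1 z
  · intro hz
    have h4 := key g⁻¹ (fun s hs => by rw [inv_inv]; exact h2 s hs) _ hz
    have h5 : g⁻¹ * (g * z * g⁻¹) * g⁻¹⁻¹ = z := by group
    rw [h5] at h4
    exact h4

theorem mem_sup_of_norm {A B : Subgroup G} (h : A ≤ Subgroup.normalizer (B : Set G)) {z : G} :
    z ∈ A ⊔ B → ∃ a ∈ A, ∃ b ∈ B, a * b = z := by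
  intro hz
  have h1 : z ∈ ((A ⊔ B : Subgroup G) : Set G) := hz
  rw [Subgroup.coe_mul_of_left_le_normalizer_right A B h] at h1
  obtain ⟨a, ha, b, hb, hab⟩ := h1
  exact ⟨a, ha, b, hb, hab⟩

/-- the elements on which two homomorphisms agree -/
def agree {A : Subgroup G} (h : G →* L) (f : A →* L) : Subgroup G :=
  (MonoidHom.eqLocus (h.comp A.subtype) f).map A.subtype

theorem mem_agree {A : Subgroup G} {h : G →* L} {f : A →* L} {z : G} (hz : z ∈ A) :
    z ∈ agree h f ↔ h z = f ⟨z, hz⟩ := by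
  constructor
  · rintro ⟨⟨y, hy⟩, h1, rfl⟩
    exact h1
  · intro h1
    exact ⟨⟨z, hz⟩, h1, rfl⟩

end gen

section fin

variable {T : Type} (Λ : SimpleGraph T) {B : T → Type} [∀ v, Group (B v)]
  {H : ∀ v, Subgroup (B v)} (θ : ∀ v, MulAut (B v)) (hθ : ∀ v b, b ∈ H v ↔ θ v b ∈ H v) (x₀ : T)

/-- the graph product over the other vertices -/
abbrev PP' (Λ : SimpleGraph T) (H : ∀ v, Subgroup (B v)) (x₀ : T) : Type :=
  PP (Λ.comap (Subtype.val : {x // x ≠ x₀} → T)) (fun x : {x // x ≠ x₀} => H x.1)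

/-- the automorphism of the graph product over the other vertices -/
noncomputable abbrev pmap' : MulAut (PP' Λ H x₀) :=
  pmap (Λ.comap (Subtype.val : {x // x ≠ x₀} → T)) (fun x : {x // x ≠ x₀} => θ x.1)
    (fun x => hθ x.1)

/-- the inclusion of the graph product over the other vertices -/
noncomputable def jj (H : ∀ v, Subgroup (B v)) : PP' Λ H x₀ →* PP Λ H :=
  plift (fun x : {x // x ≠ x₀} => PP.of Λ H x.1) (fun v w a b hab => of_comm (by
    rcases hab with hab | hab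
    · exact Or.inl hab
    · exact Or.inr ⟨fun h => hab.1 (Subtype.ext h), hab.2⟩) a)

@[simp] theorem jj_of (x : {x // x ≠ x₀}) (b : B x.1) :
    jj Λ x₀ H (PP.of _ (fun x : {x // x ≠ x₀} => H x.1) x b) = PP.of Λ H x.1 b :=
  plift_of _ _ _ _

open Classical in
/-- the retraction which kills a vertex group -/
noncomputable def qq (H : ∀ v, Subgroup (B v)) : PP Λ H →* PP' Λ H x₀ :=
  plift (fun x => if h : x ≠ x₀ then PP.of (Λ.comap (Subtype.val : {x // x ≠ x₀} → T))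
    (fun x : {x // x ≠ x₀} => H x.1) ⟨x, h⟩ else 1) (fun v w a b hab => by
    by_cases hv : v ≠ x₀
    · by_cases hw : w ≠ x₀
      · rw [dif_pos hv, dif_pos hw]
        refine of_comm (B := fun x : {x // x ≠ x₀} => B x.1) (v := ⟨v, hv⟩) (w := ⟨w, hw⟩) ?_ a
        rcases hab with hab | hab
        · exact Or.inl hab
        · exact Or.inr ⟨fun h => hab.1 (congrArg Subtype.val h), hab.2⟩
      · rw [dif_neg hw]
        simp
    · rw [dif_neg hv]
      simp)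

theorem qq_of (x : {x // x ≠ x₀}) (b : B x.1) :
    qq Λ x₀ H (PP.of Λ H x.1 b) = PP.of _ (fun x : {x // x ≠ x₀} => H x.1) x b := by
  unfold qq
  rw [plift_of, dif_pos x.2]

theorem qq_of₀ (b : B x₀) : qq Λ x₀ H (PP.of Λ H x₀ b) = 1 := by
  unfold qq
  rw [plift_of, dif_neg (fun h => h rfl)]
  rfl

theorem qq_jj (u : PP' Λ H x₀) : qq Λ x₀ H (jj Λ x₀ H u) = u := by
  have h : (qq Λ x₀ H).comp (jj Λ x₀ H) = MonoidHom.id _ := by
    apply pp_ext
    intro v a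
    rw [MonoidHom.comp_apply, jj_of, qq_of]
    rfl
  exact DFunLike.congr_fun h u

open Classical in
theorem single_comm (v w : T) (a : B v) (b : B w) (hab : Rel Λ H v w b) :
    MonoidHom.mulSingle B v a * MonoidHom.mulSingle B w b =
      MonoidHom.mulSingle B w b * MonoidHom.mulSingle B v a :=
  (Pi.mulSingle_commute hab.ne a b).eq

open Classical in
/-- the retraction to a vertex group -/
noncomputable def rr (H : ∀ v, Subgroup (B v)) : PP Λ H →* B x₀ :=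
  (Pi.evalMonoidHom B x₀).comp (plift (fun x => MonoidHom.mulSingle B x) (single_comm Λ))

theorem rr_of₀ (b : B x₀) : rr Λ x₀ H (PP.of Λ H x₀ b) = b := by
  classical
  unfold rr
  rw [MonoidHom.comp_apply, plift_of]
  exact Pi.mulSingle_eq_same x₀ b

theorem rr_of {x : T} (hx : x ≠ x₀) (b : B x) : rr Λ x₀ H (PP.of Λ H x b) = 1 := by
  classical
  unfold rr
  rw [MonoidHom.comp_apply, plift_of]
  exact Pi.mulSingle_eq_of_ne' hx b

theorem rr_jj (u : PP' Λ H x₀) : rr Λ x₀ H (jj Λ x₀ H u) = 1 := by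
  have h : (rr Λ x₀ H).comp (jj Λ x₀ H) = 1 := by
    apply pp_ext
    intro v a
    rw [MonoidHom.comp_apply, jj_of, rr_of Λ x₀ v.2]
    rfl
  exact DFunLike.congr_fun h u

theorem jj_nat (u : PP' Λ H x₀) : jj Λ x₀ H (pmap' Λ θ hθ x₀ u) = pmap Λ θ hθ (jj Λ x₀ H u) := by
  have h : (jj Λ x₀ H).comp (pmap' Λ θ hθ x₀).toMonoidHom =
      (pmap Λ θ hθ).toMonoidHom.comp (jj Λ x₀ H) := by
    apply pp_ext
    intro v a
    rw [MonoidHom.comp_apply, MonoidHom.comp_apply]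
    show jj Λ x₀ H (pmap' Λ θ hθ x₀ _) = pmap Λ θ hθ (jj Λ x₀ H _)
    rw [pmap_of, jj_of, jj_of, pmap_of]
  exact DFunLike.congr_fun h u

theorem qq_nat (u : PP Λ H) : qq Λ x₀ H (pmap Λ θ hθ u) = pmap' Λ θ hθ x₀ (qq Λ x₀ H u) := by
  have h : (qq Λ x₀ H).comp (pmap Λ θ hθ).toMonoidHom =
      (pmap' Λ θ hθ x₀).toMonoidHom.comp (qq Λ x₀ H) := by
    apply pp_ext
    intro v a
    rw [MonoidHom.comp_apply, MonoidHom.comp_apply]
    show qq Λ x₀ H (pmap Λ θ hθ _) = pmap' Λ θ hθ x₀ (qq Λ x₀ H _)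
    rw [pmap_of]
    by_cases hv : v = x₀
    · subst hv
      rw [qq_of₀, qq_of₀, map_one]
    · rw [qq_of Λ x₀ ⟨v, hv⟩, qq_of Λ x₀ ⟨v, hv⟩, pmap_of]
  exact DFunLike.congr_fun h u

theorem rr_nat (u : PP Λ H) : rr Λ x₀ H (pmap Λ θ hθ u) = θ x₀ (rr Λ x₀ H u) := by
  have h : (rr Λ x₀ H).comp (pmap Λ θ hθ).toMonoidHom =
      (θ x₀).toMonoidHom.comp (rr Λ x₀ H) := by
    apply pp_ext
    intro v a
    rw [MonoidHom.comp_apply, MonoidHom.comp_apply]
    show rr Λ x₀ H (pmap Λ θ hθ _) = θ x₀ (rr Λ x₀ H _)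
    rw [pmap_of]
    by_cases hv : v = x₀
    · subst hv
      rw [rr_of₀, rr_of₀]
    · rw [rr_of Λ x₀ hv, rr_of Λ x₀ hv, map_one]
  exact DFunLike.congr_fun h u

theorem of_nat (b : B x₀) : PP.of Λ H x₀ (θ x₀ b) = pmap Λ θ hθ (PP.of Λ H x₀ b) := by
  rw [pmap_of]

/-- the mapping torus -/
abbrev PT (Λ : SimpleGraph T) (θ : ∀ v, MulAut (B v)) (hθ : ∀ v b, b ∈ H v ↔ θ v b ∈ H v) : Type :=
  MT (PP Λ H) (pmap Λ θ hθ)

/-- the part over the other vertices -/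
noncomputable abbrev j1 : MT (PP' Λ H x₀) (pmap' Λ θ hθ x₀) →* PT Λ θ hθ :=
  mtMap (jj Λ x₀ H) (jj_nat Λ θ hθ x₀)

/-- the part of the vertex -/
noncomputable abbrev j2 : MT (B x₀) (θ x₀) →* PT Λ θ hθ :=
  mtMap (PP.of Λ H x₀) (of_nat Λ θ hθ x₀)

/-- the retraction to the part over the other vertices -/
noncomputable abbrev q1 : PT Λ θ hθ →* MT (PP' Λ H x₀) (pmap' Λ θ hθ x₀) :=
  mtMap (qq Λ x₀ H) (qq_nat Λ θ hθ x₀)

/-- the retraction to the part of the vertex -/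
noncomputable abbrev q2 : PT Λ θ hθ →* MT (B x₀) (θ x₀) :=
  mtMap (rr Λ x₀ H) (rr_nat Λ θ hθ x₀)

theorem q1_j1 (z : MT (PP' Λ H x₀) (pmap' Λ θ hθ x₀)) : q1 Λ θ hθ x₀ (j1 Λ θ hθ x₀ z) = z := by
  have h : (q1 Λ θ hθ x₀).comp (j1 Λ θ hθ x₀) = MonoidHom.id _ := by
    apply mt_hom_ext
    · intro a
      rw [MonoidHom.comp_apply, mtMap_il, mtMap_il, qq_jj]
      rfl
    · rw [MonoidHom.comp_apply, mtMap_tt, mtMap_tt]
      rfl
  exact DFunLike.congr_fun h z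

theorem q2_j2 (z : MT (B x₀) (θ x₀)) : q2 Λ θ hθ x₀ (j2 Λ θ hθ x₀ z) = z := by
  have h : (q2 Λ θ hθ x₀).comp (j2 Λ θ hθ x₀) = MonoidHom.id _ := by
    apply mt_hom_ext
    · intro a
      rw [MonoidHom.comp_apply, mtMap_il, mtMap_il, rr_of₀]
      rfl
    · rw [MonoidHom.comp_apply, mtMap_tt, mtMap_tt]
      rfl
  exact DFunLike.congr_fun h z

/-- the elements of the subgroup of the vertex -/
def HS : Set (PT Λ θ hθ) := {z | ∃ b ∈ H x₀, z = il _ (PP.of Λ H x₀ b)}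

/-- the elements which commute with the vertex group -/
def DS : Set (PT Λ θ hθ) :=
  {z | ∃ (x : T) (b : B x), x ≠ x₀ ∧ (Λ.Adj x₀ x ∨ b ∈ H x) ∧ z = il _ (PP.of Λ H x b)}

/-- the first factor -/
noncomputable def AA : Subgroup (PT Λ θ hθ) := (j1 Λ θ hθ x₀).range ⊔ Subgroup.closure (HS Λ θ hθ x₀)

/-- the second factor -/
noncomputable def BB : Subgroup (PT Λ θ hθ) := (j2 Λ θ hθ x₀).range ⊔ Subgroup.closure (DS Λ θ hθ x₀)

/-- the amalgamated subgroup -/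
noncomputable def KK : Subgroup (PT Λ θ hθ) :=
  Subgroup.closure ({tt _} ∪ (HS Λ θ hθ x₀ ∪ DS Λ θ hθ x₀))

theorem il_mem_j1 {x : T} (hx : x ≠ x₀) (b : B x) :
    (il _ (PP.of Λ H x b) : PT Λ θ hθ) ∈ (j1 Λ θ hθ x₀).range := by
  refine ⟨il _ (PP.of _ _ ⟨x, hx⟩ b), ?_⟩
  rw [mtMap_il, jj_of]

theorem il_mem_j2 (b : B x₀) : (il _ (PP.of Λ H x₀ b) : PT Λ θ hθ) ∈ (j2 Λ θ hθ x₀).range :=
  ⟨il _ b, by rw [mtMap_il]⟩

theorem HS_le : Subgroup.closure (HS Λ θ hθ x₀) ≤ (j2 Λ θ hθ x₀).range := by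
  rw [Subgroup.closure_le]
  rintro _ ⟨b, -, rfl⟩
  exact il_mem_j2 Λ θ hθ x₀ b

theorem HS_le' : Subgroup.closure (HS Λ θ hθ x₀) ≤ ((il (pmap Λ θ hθ)).comp (PP.of Λ H x₀)).range := by
  rw [Subgroup.closure_le]
  rintro _ ⟨b, -, rfl⟩
  exact ⟨b, rfl⟩

theorem DS_le : Subgroup.closure (DS Λ θ hθ x₀) ≤ ((il (pmap Λ θ hθ)).comp (jj Λ x₀ H)).range := by
  rw [Subgroup.closure_le]
  rintro _ ⟨x, b, hx, -, rfl⟩
  refine ⟨PP.of _ _ ⟨x, hx⟩ b, ?_⟩
  rw [MonoidHom.comp_apply, jj_of]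

theorem DS_le' : Subgroup.closure (DS Λ θ hθ x₀) ≤ (j1 Λ θ hθ x₀).range := by
  rw [Subgroup.closure_le]
  rintro _ ⟨x, b, hx, -, rfl⟩
  exact il_mem_j1 Λ θ hθ x₀ hx b

theorem tt_conj_inv {A : Type} [Group A] {η : MulAut A} (a : A) :
    (tt η)⁻¹ * il η a * tt η = il η (η⁻¹ a) := by
  have h := tt_conj (η := η) (η⁻¹ a)
  rw [MulAut.apply_inv_self] at h
  rw [← h]
  group

theorem tt_norm_HS : (tt _ : PT Λ θ hθ) ∈ Subgroup.normalizer (Subgroup.closure (HS Λ θ hθ x₀) : Set _) := by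
  apply norm_of_gens
  · rintro _ ⟨b, hb, rfl⟩
    rw [tt_conj, pmap_of]
    exact Subgroup.subset_closure ⟨θ x₀ b, (hθ _ _).1 hb, rfl⟩
  · rintro _ ⟨b, hb, rfl⟩
    obtain ⟨c, rfl⟩ := (θ x₀).surjective b
    rw [tt_conj_inv, ← pmap_of (Λ := Λ) θ hθ, MulAut.inv_apply_self]
    exact Subgroup.subset_closure ⟨c, (hθ _ _).2 hb, rfl⟩

theorem tt_norm_DS : (tt _ : PT Λ θ hθ) ∈ Subgroup.normalizer (Subgroup.closure (DS Λ θ hθ x₀) : Set _) := by
  apply norm_of_gens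
  · rintro _ ⟨x, b, hx, hb, rfl⟩
    rw [tt_conj, pmap_of]
    refine Subgroup.subset_closure ⟨x, θ x b, hx, ?_, rfl⟩
    rcases hb with hb | hb
    · exact Or.inl hb
    · exact Or.inr ((hθ _ _).1 hb)
  · rintro _ ⟨x, b, hx, hb, rfl⟩
    obtain ⟨c, rfl⟩ := (θ x).surjective b
    rw [tt_conj_inv, ← pmap_of (Λ := Λ) θ hθ, MulAut.inv_apply_self]
    refine Subgroup.subset_closure ⟨x, c, hx, ?_, rfl⟩
    rcases hb with hb | hb
    · exact Or.inl hb
    · exact Or.inr ((hθ _ _).2 hb)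

theorem cent_norm {G : Type} [Group G] (S : Set G) (g : G) (h : ∀ s ∈ S, g * s = s * g) :
    g ∈ Subgroup.normalizer (Subgroup.closure S : Set G) := by
  apply norm_of_gens
  · intro s hs
    rw [h s hs, mul_inv_cancel_right]
    exact Subgroup.subset_closure hs
  · intro s hs
    rw [mul_assoc, ← h s hs, inv_mul_cancel_left]
    exact Subgroup.subset_closure hs

theorem j1_norm : (j1 Λ θ hθ x₀).range ≤ Subgroup.normalizer (Subgroup.closure (HS Λ θ hθ x₀) : Set _) := by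
  rintro _ ⟨z, rfl⟩
  have h : z ∈ (Subgroup.normalizer (Subgroup.closure (HS Λ θ hθ x₀) : Set _)).comap
      (j1 Λ θ hθ x₀) := by
    refine mt_gen _ (fun a => ?_) ?_ z
    · refine pp_gen (Subgroup.comap (il _) (Subgroup.comap (j1 Λ θ hθ x₀)
        (Subgroup.normalizer (Subgroup.closure (HS Λ θ hθ x₀) : Set _)))) (fun v b => ?_) a
      rw [Subgroup.mem_comap, Subgroup.mem_comap, mtMap_il, jj_of]
      apply cent_norm
      rintro _ ⟨c, hc, rfl⟩
      rw [← map_mul, ← map_mul, of_comm (Or.inr ⟨v.2, hc⟩)]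
    · rw [Subgroup.mem_comap, mtMap_tt]
      exact tt_norm_HS Λ θ hθ x₀
  exact h

theorem j2_norm : (j2 Λ θ hθ x₀).range ≤ Subgroup.normalizer (Subgroup.closure (DS Λ θ hθ x₀) : Set _) := by
  rintro _ ⟨z, rfl⟩
  have h : z ∈ (Subgroup.normalizer (Subgroup.closure (DS Λ θ hθ x₀) : Set _)).comap
      (j2 Λ θ hθ x₀) := by
    refine mt_gen _ (fun a => ?_) ?_ z
    · rw [Subgroup.mem_comap, mtMap_il]
      apply cent_norm
      rintro _ ⟨x, c, hx, hc, rfl⟩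
      rw [← map_mul, ← map_mul, of_comm]
      rcases hc with hc | hc
      · exact Or.inl hc
      · exact Or.inr ⟨hx.symm, hc⟩
    · rw [Subgroup.mem_comap, mtMap_tt]
      exact tt_norm_DS Λ θ hθ x₀
  exact h

theorem inj_AA (a : PT Λ θ hθ) (ha : a ∈ AA Λ θ hθ x₀)
    (h : ((q1 Λ θ hθ x₀).prod (q2 Λ θ hθ x₀)) a = 1) : a = 1 := by
  obtain ⟨_, ⟨z, rfl⟩, k, hk, rfl⟩ := mem_sup_of_norm (j1_norm Λ θ hθ x₀) ha
  obtain ⟨b, rfl⟩ := HS_le' Λ θ hθ x₀ hk
  have h1 := congrArg Prod.fst h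
  have h2 := congrArg Prod.snd h
  have h1' : q1 Λ θ hθ x₀ (j1 Λ θ hθ x₀ z * il _ (PP.of Λ H x₀ b)) = 1 := h1
  have h2' : q2 Λ θ hθ x₀ (j1 Λ θ hθ x₀ z * il _ (PP.of Λ H x₀ b)) = 1 := h2
  rw [map_mul, q1_j1, mtMap_il, qq_of₀, map_one, mul_one] at h1'
  subst h1'
  rw [map_one, one_mul, mtMap_il, rr_of₀] at h2'
  have h3 : b = 1 := SemidirectProduct.inl_injective (h2'.trans (map_one _).symm)
  rw [h3]
  simp

theorem inj_BB (a : PT Λ θ hθ) (ha : a ∈ BB Λ θ hθ x₀)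
    (h : ((q1 Λ θ hθ x₀).prod (q2 Λ θ hθ x₀)) a = 1) : a = 1 := by
  obtain ⟨_, ⟨z, rfl⟩, k, hk, rfl⟩ := mem_sup_of_norm (j2_norm Λ θ hθ x₀) ha
  obtain ⟨u, rfl⟩ := DS_le Λ θ hθ x₀ hk
  have h1 := congrArg Prod.fst h
  have h2 := congrArg Prod.snd h
  have h1' : q1 Λ θ hθ x₀ (j2 Λ θ hθ x₀ z * il _ (jj Λ x₀ H u)) = 1 := h1
  have h2' : q2 Λ θ hθ x₀ (j2 Λ θ hθ x₀ z * il _ (jj Λ x₀ H u)) = 1 := h2
  rw [map_mul, q2_j2, mtMap_il, rr_jj, map_one, mul_one] at h2'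
  subst h2'
  rw [map_one, one_mul, mtMap_il, qq_jj] at h1'
  have h3 : u = 1 := SemidirectProduct.inl_injective (h1'.trans (map_one _).symm)
  rw [h3]
  simp

theorem tt_j1 : (tt _ : PT Λ θ hθ) ∈ (j1 Λ θ hθ x₀).range := ⟨tt _, by rw [mtMap_tt]⟩

theorem tt_j2 : (tt _ : PT Λ θ hθ) ∈ (j2 Λ θ hθ x₀).range := ⟨tt _, by rw [mtMap_tt]⟩

theorem KK_AA : KK Λ θ hθ x₀ ≤ AA Λ θ hθ x₀ := by
  unfold KK AA
  rw [Subgroup.closure_le]
  rintro z (hz | hz | hz)
  · rw [Set.mem_singleton_iff] at hz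
    rw [hz]
    exact Subgroup.mem_sup_left (tt_j1 Λ θ hθ x₀)
  · exact Subgroup.mem_sup_right (Subgroup.subset_closure hz)
  · exact Subgroup.mem_sup_left (DS_le' Λ θ hθ x₀ (Subgroup.subset_closure hz))

theorem KK_BB : KK Λ θ hθ x₀ ≤ BB Λ θ hθ x₀ := by
  unfold KK BB
  rw [Subgroup.closure_le]
  rintro z (hz | hz | hz)
  · rw [Set.mem_singleton_iff] at hz
    rw [hz]
    exact Subgroup.mem_sup_left (tt_j2 Λ θ hθ x₀)
  · exact Subgroup.mem_sup_left (HS_le Λ θ hθ x₀ (Subgroup.subset_closure hz))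
  · exact Subgroup.mem_sup_right (Subgroup.subset_closure hz)

theorem tt_AA : (tt _ : PT Λ θ hθ) ∈ AA Λ θ hθ x₀ := Subgroup.mem_sup_left (tt_j1 Λ θ hθ x₀)

theorem tt_BB : (tt _ : PT Λ θ hθ) ∈ BB Λ θ hθ x₀ := Subgroup.mem_sup_left (tt_j2 Λ θ hθ x₀)

theorem tt_KK : (tt _ : PT Λ θ hθ) ∈ KK Λ θ hθ x₀ :=
  Subgroup.subset_closure (Or.inl rfl)

theorem HS_KK {b : B x₀} (hb : b ∈ H x₀) : (il _ (PP.of Λ H x₀ b) : PT Λ θ hθ) ∈ KK Λ θ hθ x₀ :=
  Subgroup.subset_closure (Or.inr (Or.inl ⟨b, hb, rfl⟩))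

theorem DS_KK {x : T} (hx : x ≠ x₀) {b : B x} (hb : Λ.Adj x₀ x ∨ b ∈ H x) :
    (il _ (PP.of Λ H x b) : PT Λ θ hθ) ∈ KK Λ θ hθ x₀ :=
  Subgroup.subset_closure (Or.inr (Or.inr ⟨x, b, hx, hb, rfl⟩))

theorem il_AA {x : T} (hx : x ≠ x₀) (b : B x) :
    (il _ (PP.of Λ H x b) : PT Λ θ hθ) ∈ AA Λ θ hθ x₀ :=
  Subgroup.mem_sup_left (il_mem_j1 Λ θ hθ x₀ hx b)

theorem il_BB (b : B x₀) : (il _ (PP.of Λ H x₀ b) : PT Λ θ hθ) ∈ BB Λ θ hθ x₀ :=
  Subgroup.mem_sup_left (il_mem_j2 Λ θ hθ x₀ b)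

theorem sub_mul {G L : Type} [Group G] [Group L] {A : Subgroup G} (f : A →* L) {a b : G}
    (ha : a ∈ A) (hb : b ∈ A) (hab : a * b ∈ A) : f ⟨a * b, hab⟩ = f ⟨a, ha⟩ * f ⟨b, hb⟩ := by
  rw [← map_mul]
  rfl

theorem sub_eq {G L : Type} [Group G] [Group L] {A : Subgroup G} (f : A →* L) {a b : G}
    (ha : a ∈ A) (hb : b ∈ A) (hab : a = b) : f ⟨a, ha⟩ = f ⟨b, hb⟩ := by
  subst hab
  rfl

theorem sub_conj {G L : Type} [Group G] [Group L] {A : Subgroup G} (f : A →* L) {a b c : G}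
    (ha : a ∈ A) (hb : b ∈ A) (hc : c ∈ A) (h : c = a * b * a⁻¹) :
    f ⟨c, hc⟩ = f ⟨a, ha⟩ * f ⟨b, hb⟩ * (f ⟨a, ha⟩)⁻¹ := by
  subst h
  rw [← map_mul, ← map_inv, ← map_mul]
  rfl

theorem sub_comm {G L : Type} [Group G] [Group L] {A : Subgroup G} (f : A →* L) {a b : G}
    (ha : a ∈ A) (hb : b ∈ A) (h : a * b = b * a) :
    f ⟨a, ha⟩ * f ⟨b, hb⟩ = f ⟨b, hb⟩ * f ⟨a, ha⟩ := by
  rw [← map_mul, ← map_mul]
  exact congrArg f (Subtype.ext h)

theorem amg : Amg (AA Λ θ hθ x₀) (BB Λ θ hθ x₀) (KK Λ θ hθ x₀) where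
  le_left := KK_AA Λ θ hθ x₀
  le_right := KK_BB Λ θ hθ x₀
  gen := by
    rw [eq_top_iff]
    intro z _
    refine mt_gen _ (fun a => ?_) (Subgroup.mem_sup_left (tt_AA Λ θ hθ x₀)) z
    refine pp_gen (Subgroup.comap (il _) (AA Λ θ hθ x₀ ⊔ BB Λ θ hθ x₀)) (fun v b => ?_) a
    rw [Subgroup.mem_comap]
    by_cases hv : v = x₀
    · subst hv
      exact Subgroup.mem_sup_right (il_BB Λ θ hθ _ b)
    · exact Subgroup.mem_sup_left (il_AA Λ θ hθ x₀ hv b)
  univ := by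
    classical
    intro L _ f g hfg
    obtain ⟨F, hF1, hF0⟩ : ∃ F : ∀ x, B x →* L,
        (∀ x (hx : x ≠ x₀) b, F x b = f ⟨il _ (PP.of Λ H x b), il_AA Λ θ hθ x₀ hx b⟩) ∧
        ∀ b, F x₀ b = g ⟨il _ (PP.of Λ H x₀ b), il_BB Λ θ hθ x₀ b⟩ := by
      refine ⟨fun x => if h : x = x₀ then
          g.comp (((il _).comp (PP.of Λ H x)).codRestrict (BB Λ θ hθ x₀) (fun b => by
            subst h
            exact il_BB Λ θ hθ _ b))
        else f.comp (((il _).comp (PP.of Λ H x)).codRestrict (AA Λ θ hθ x₀) (fun b =>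
            il_AA Λ θ hθ x₀ h b)), ?_, ?_⟩
      · intro x hx b
        simp only [dif_neg hx]
        rfl
      · intro b
        simp only [dif_pos]
        rfl
    have hs := hfg _ (tt_KK Λ θ hθ x₀)
    have hcomm : ∀ v w a b, Rel Λ H v w b → F v a * F w b = F w b * F v a := by
      intro v w a b hab
      have hc : (il (pmap Λ θ hθ) (PP.of Λ H v a)) * (il _ (PP.of Λ H w b)) =
          il _ (PP.of Λ H w b) * il _ (PP.of Λ H v a) := by
        rw [← map_mul, ← map_mul, of_comm hab]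
      by_cases hv : v = x₀
      · have hw : w ≠ x₀ := fun h => hab.ne (hv.trans h.symm)
        subst hv
        have hb : Λ.Adj v w ∨ b ∈ H w := by
          rcases hab with h | h
          · exact Or.inl h
          · exact Or.inr h.2
        rw [hF1 w hw, hF0, hfg _ (DS_KK Λ θ hθ v hw hb)]
        exact sub_comm g _ _ hc
      · by_cases hw : w = x₀
        · subst hw
          rcases hab with h | h
          · rw [hF1 v hv, hF0, hfg _ (DS_KK Λ θ hθ w hv (Or.inl h.symm))]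
            exact sub_comm g _ _ hc
          · rw [hF1 v hv, hF0, ← hfg _ (HS_KK Λ θ hθ w h.2)]
            exact sub_comm f _ _ hc
        · rw [hF1 v hv, hF1 w hw]
          exact sub_comm f _ _ hc
    have hnat : ∀ u, plift F hcomm (pmap Λ θ hθ u) =
        f ⟨tt _, tt_AA Λ θ hθ x₀⟩ * plift F hcomm u * (f ⟨tt _, tt_AA Λ θ hθ x₀⟩)⁻¹ := by
      intro u
      have h1 : (plift F hcomm).comp (pmap Λ θ hθ).toMonoidHom =
          (MulAut.conj (f ⟨tt _, tt_AA Λ θ hθ x₀⟩)).toMonoidHom.comp (plift F hcomm) := by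
        apply pp_ext
        intro v a
        rw [MonoidHom.comp_apply, MonoidHom.comp_apply, plift_of]
        show plift F hcomm (pmap Λ θ hθ (PP.of Λ H v a)) =
          f ⟨tt _, tt_AA Λ θ hθ x₀⟩ * F v a * (f ⟨tt _, tt_AA Λ θ hθ x₀⟩)⁻¹
        have h2 := tt_conj (η := pmap Λ θ hθ) (PP.of Λ H v a)
        rw [pmap_of] at h2
        rw [pmap_of, plift_of]
        by_cases hv : v = x₀
        · subst hv
          rw [hs, hF0, hF0]
          exact sub_conj g _ _ _ h2.symm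
        · rw [hF1 v hv, hF1 v hv]
          exact sub_conj f _ _ _ h2.symm
      exact DFunLike.congr_fun h1 u
    refine ⟨mtLift (plift F hcomm) _ hnat, ?_, ?_⟩
    · have hle : AA Λ θ hθ x₀ ≤ agree (mtLift (plift F hcomm) _ hnat) f := by
        refine sup_le ?_ ?_
        · rintro _ ⟨z, rfl⟩
          have h : z ∈ (agree (mtLift (plift F hcomm) _ hnat) f).comap (j1 Λ θ hθ x₀) := by
            refine mt_gen _ (fun a => ?_) ?_ z
            · refine pp_gen (Subgroup.comap (il _) (Subgroup.comap (j1 Λ θ hθ x₀)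
                (agree (mtLift (plift F hcomm) _ hnat) f))) (fun v b => ?_) a
              rw [Subgroup.mem_comap, Subgroup.mem_comap, mtMap_il, jj_of,
                mem_agree (il_AA Λ θ hθ x₀ v.2 b), mtLift_il, plift_of, hF1 v.1 v.2]
            · rw [Subgroup.mem_comap, mtMap_tt, mem_agree (tt_AA Λ θ hθ x₀), mtLift_tt]
          exact h
        · rw [Subgroup.closure_le]
          rintro _ ⟨b, hb, rfl⟩
          have hb' := HS_KK Λ θ hθ x₀ hb
          rw [SetLike.mem_coe, mem_agree (KK_AA Λ θ hθ x₀ hb'), mtLift_il, plift_of, hF0,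
            hfg _ hb']
      intro a
      have := (mem_agree a.2).1 (hle a.2)
      exact this
    · have hle : BB Λ θ hθ x₀ ≤ agree (mtLift (plift F hcomm) _ hnat) g := by
        refine sup_le ?_ ?_
        · rintro _ ⟨z, rfl⟩
          have h : z ∈ (agree (mtLift (plift F hcomm) _ hnat) g).comap (j2 Λ θ hθ x₀) := by
            refine mt_gen _ (fun a => ?_) ?_ z
            · rw [Subgroup.mem_comap, mtMap_il,
                mem_agree (il_BB Λ θ hθ x₀ a), mtLift_il, plift_of, hF0]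
            · rw [Subgroup.mem_comap, mtMap_tt, mem_agree (tt_BB Λ θ hθ x₀), mtLift_tt, hs]
          exact h
        · rw [Subgroup.closure_le]
          rintro _ ⟨x, b, hx, hb, rfl⟩
          have hb' := DS_KK Λ θ hθ x₀ hx hb
          rw [SetLike.mem_coe, mem_agree (KK_BB Λ θ hθ x₀ hb'), mtLift_il, plift_of, hF1 x hx,
            hfg _ hb']
      intro a
      have := (mem_agree a.2).1 (hle a.2)
      exact this

end fin

section ind

variable {C : ∀ (G : Type) [Group G], Prop}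

theorem C_subsingleton (hC : Closed C) (A : Type) [Group A] [Subsingleton A] : C A :=
  hC.of_injective A _ (1 : A →* Multiplicative ℤ) (fun _ _ _ => Subsingleton.elim _ _) hC.int

/-- **mapping tori of finite graph products of pairs** -/
theorem pt_C (hC : ClosedE C) : ∀ (n : ℕ) (T : Type) [Finite T] (_ : Nat.card T = n)
    (Λ : SimpleGraph T) (B : T → Type) [∀ v, Group (B v)] (H : ∀ v, Subgroup (B v))
    (θ : ∀ v, MulAut (B v)) (hθ : ∀ v b, b ∈ H v ↔ θ v b ∈ H v)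
    (_ : ∀ v, C (MT (B v) (θ v))), C (PT Λ θ hθ) := by
  intro n
  induction n with
  | zero =>
    intro T _ hn Λ B _ H θ hθ _
    have hT : IsEmpty T := by
      rcases Nat.card_eq_zero.1 hn with h | h
      · exact h
      · exact absurd h (by rw [not_infinite_iff_finite]; infer_instance)
    have : Subsingleton (PP Λ H) := by
      refine ⟨fun x y => ?_⟩
      have h1 := pp_gen (⊥ : Subgroup (PP Λ H)) (fun v => hT.elim v) x
      have h2 := pp_gen (⊥ : Subgroup (PP Λ H)) (fun v => hT.elim v) y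
      rw [Subgroup.mem_bot] at h1 h2
      rw [h1, h2]
    refine mt_of hC.base hC.base.int (1 : PP Λ H →* Multiplicative ℤ)
      (fun _ _ _ => Subsingleton.elim _ _) 1 (fun a => by simp)
  | succ n ih =>
    intro T _ hn Λ B _ H θ hθ hB
    have hne : Nonempty T := by
      by_contra h
      rw [not_nonempty_iff] at h
      rw [Nat.card_of_isEmpty] at hn
      exact absurd hn (by omega)
    obtain ⟨x₀⟩ := hne
    have hcard : Nat.card {x // x ≠ x₀} = n := by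
      classical
      have := Fintype.ofFinite T
      rw [Nat.card_eq_fintype_card] at hn ⊢
      have h1 := Fintype.card_subtype_compl (fun x : T => x = x₀)
      rw [Fintype.card_subtype_eq] at h1
      have h2 : Fintype.card {x // x ≠ x₀} = Fintype.card {x // ¬ (x = x₀)} := rfl
      rw [h2, h1, hn]
      omega
    exact s_am C hC _ _ _ _ _ (amg Λ θ hθ x₀) ((q1 Λ θ hθ x₀).prod (q2 Λ θ hθ x₀))
      (inj_AA Λ θ hθ x₀) (inj_BB Λ θ hθ x₀)
      (hC.base.prod _ _ (ih _ hcard _ _ _ _ _ (fun v => hB v.1)) (hB x₀))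

end ind

end Pool.Agent.W2helper25.GP
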