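import Pool.Agent.N77.GP.Basic

/-!
# Graph products of pairs of groups
-/

set_option autoImplicit false

namespace Pool.Agent.W2helper25.GP

open Pool.Agent.N77.GP (MT il tt mt_pow mt_one tt_conj mtLift mtLift_il mtLift_tt mt_form
  mt_hom_ext)

section pp

variable {V : Type} {Λ : SimpleGraph V} {B : V → Type} [∀ v, Group (B v)]
  {H : ∀ v, Subgroup (B v)}

/-- the relations between elements of different vertex groups -/
def Rel (Λ : SimpleGraph V) (H : ∀ v, Subgroup (B v)) (v w : V) (b : B w) : Prop :=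
  Λ.Adj v w ∨ (v ≠ w ∧ b ∈ H w)

theorem Rel.ne {v w : V} {b : B w} (h : Rel Λ H v w b) : v ≠ w := by
  rcases h with h | h
  · exact h.ne
  · exact h.1

/-- the relators -/
def rels (Λ : SimpleGraph V) (H : ∀ v, Subgroup (B v)) : Set (Monoid.CoprodI B) :=
  {r | ∃ (v w : V) (a : B v) (b : B w), Rel Λ H v w b ∧
    r = Monoid.CoprodI.of a * Monoid.CoprodI.of b * (Monoid.CoprodI.of a)⁻¹ * (Monoid.CoprodI.of b)⁻¹}

/-- the graph product of the pairs `(B v, H v)` -/
abbrev PP (Λ : SimpleGraph V) (H : ∀ v, Subgroup (B v)) : Type :=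
  Monoid.CoprodI B ⧸ Subgroup.normalClosure (rels Λ H)

/-- the vertex groups -/
def PP.of (Λ : SimpleGraph V) (H : ∀ v, Subgroup (B v)) (v : V) : B v →* PP Λ H :=
  (QuotientGroup.mk' _).comp Monoid.CoprodI.of

/-- the universal property -/
noncomputable def plift {L : Type} [Group L] (F : ∀ v, B v →* L)
    (hF : ∀ v w a b, Rel Λ H v w b → F v a * F w b = F w b * F v a) : PP Λ H →* L :=
  QuotientGroup.lift _ (Monoid.CoprodI.lift F) (by
    intro x hx
    have h1 : Subgroup.normalClosure (rels Λ H) ≤ (Monoid.CoprodI.lift F).ker := by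
      apply Subgroup.normalClosure_le_normal
      rintro r ⟨v, w, a, b, h, rfl⟩
      rw [SetLike.mem_coe, MonoidHom.mem_ker]
      simp only [map_mul, map_inv, Monoid.CoprodI.lift_of]
      rw [hF v w a b h]
      group
    exact h1 hx)

@[simp] theorem plift_of {L : Type} [Group L] (F : ∀ v, B v →* L)
    (hF : ∀ v w a b, Rel Λ H v w b → F v a * F w b = F w b * F v a) (v : V) (a : B v) :
    plift F hF (PP.of Λ H v a) = F v a := by
  show (Monoid.CoprodI.lift F) (Monoid.CoprodI.of a) = F v a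
  rw [Monoid.CoprodI.lift_of]

theorem pp_ext {L : Type} [Group L] {f g : PP Λ H →* L}
    (h : ∀ v a, f (PP.of Λ H v a) = g (PP.of Λ H v a)) : f = g := by
  apply QuotientGroup.monoidHom_ext
  apply Monoid.CoprodI.ext_hom
  intro v
  ext a
  exact h v a

theorem of_comm {v w : V} {b : B w} (h : Rel Λ H v w b) (a : B v) :
    PP.of Λ H v a * PP.of Λ H w b = PP.of Λ H w b * PP.of Λ H v a := by
  have h1 : (QuotientGroup.mk' (Subgroup.normalClosure (rels Λ H)))
      (Monoid.CoprodI.of a * Monoid.CoprodI.of b * (Monoid.CoprodI.of a)⁻¹ *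
        (Monoid.CoprodI.of b)⁻¹) = 1 := by
    rw [QuotientGroup.mk'_apply, QuotientGroup.eq_one_iff]
    exact Subgroup.subset_normalClosure ⟨v, w, a, b, h, rfl⟩
  rw [map_mul, map_mul, map_mul, map_inv, map_inv] at h1
  have h2 := mul_inv_eq_one.1 h1
  have h3 := mul_inv_eq_iff_eq_mul.1 h2
  exact h3

theorem pp_gen (S : Subgroup (PP Λ H)) (h : ∀ v a, PP.of Λ H v a ∈ S) (x : PP Λ H) : x ∈ S := by
  have h1 : S.subtype.comp (plift (Λ := Λ) (H := H)
      (fun v => (PP.of Λ H v).codRestrict S (h v)) (fun v w a b hab => by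
        apply Subtype.ext
        exact of_comm hab a)) = MonoidHom.id _ := by
    apply pp_ext
    intro v a
    rw [MonoidHom.comp_apply, plift_of]
    rfl
  have h2 := DFunLike.congr_fun h1 x
  rw [MonoidHom.comp_apply] at h2
  rw [MonoidHom.id_apply] at h2
  rw [← h2]
  exact Subtype.property _

/-- the endomorphism given by endomorphisms of the vertex groups -/
noncomputable def pmapHom (θ : ∀ v, MulAut (B v)) (hθ : ∀ v b, b ∈ H v → θ v b ∈ H v) :
    PP Λ H →* PP Λ H :=
  plift (fun v => (PP.of Λ H v).comp (θ v).toMonoidHom) (fun v w a b hab =>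
    of_comm (by
      rcases hab with hab | hab
      · exact Or.inl hab
      · exact Or.inr ⟨hab.1, hθ w b hab.2⟩) _)

@[simp] theorem pmapHom_of (θ : ∀ v, MulAut (B v)) (hθ : ∀ v b, b ∈ H v → θ v b ∈ H v) (v : V)
    (a : B v) : pmapHom (Λ := Λ) θ hθ (PP.of Λ H v a) = PP.of Λ H v (θ v a) :=
  plift_of _ _ _ _

/-- the automorphism given by automorphisms of the vertex groups -/
noncomputable def pmap (Λ : SimpleGraph V) (θ : ∀ v, MulAut (B v)) (hθ : ∀ v b, b ∈ H v ↔ θ v b ∈ H v) :
    MulAut (PP Λ H) :=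
  MonoidHom.toMulEquiv (pmapHom θ fun v b => (hθ v b).1) (pmapHom (fun v => (θ v)⁻¹) fun v b hb => by
      rw [hθ, MulAut.apply_inv_self]
      exact hb)
    (pp_ext fun v a => by
      rw [MonoidHom.comp_apply, pmapHom_of, pmapHom_of]
      simp)
    (pp_ext fun v a => by
      rw [MonoidHom.comp_apply, pmapHom_of, pmapHom_of]
      simp)

@[simp] theorem pmap_of (θ : ∀ v, MulAut (B v)) (hθ : ∀ v b, b ∈ H v ↔ θ v b ∈ H v) (v : V)
    (a : B v) : pmap Λ θ hθ (PP.of Λ H v a) = PP.of Λ H v (θ v a) :=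
  pmapHom_of θ (fun v b => (hθ v b).1) v a

end pp

section mt

variable {A A' : Type} [Group A] [Group A'] {η : MulAut A} {η' : MulAut A'}

/-- maps of mapping tori -/
noncomputable def mtMap (f : A →* A') (h : ∀ a, f (η a) = η' (f a)) : MT A η →* MT A' η' :=
  mtLift ((il η').comp f) (tt η') (fun a => by
    rw [MonoidHom.comp_apply, MonoidHom.comp_apply, tt_conj, h])

@[simp] theorem mtMap_il (f : A →* A') (h : ∀ a, f (η a) = η' (f a)) (a : A) :
    mtMap f h (il η a) = il η' (f a) :=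
  mtLift_il _ _ _ _

@[simp] theorem mtMap_tt (f : A →* A') (h : ∀ a, f (η a) = η' (f a)) :
    mtMap f h (tt η) = tt η' :=
  mtLift_tt _ _ _

theorem mt_gen (S : Subgroup (MT A η)) (h1 : ∀ a, il η a ∈ S) (h2 : tt η ∈ S) (x : MT A η) :
    x ∈ S := by
  rw [mt_form x]
  exact mul_mem (h1 _) (zpow_mem h2 _)

end mt

end Pool.Agent.W2helper25.GP
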